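import Mathlib
import Pool.Agent.helper41.Dom1

set_option autoImplicit false

/-!
# Z-domination game versus LL-domination game on trees

We prove that every tree `T` with at least two vertices satisfies
`γ_Zg(T) < γ_LLg(T)`.
-/

namespace Pool.Agent.Results.MP_3a5066_co.TreeStrict

universe u

variable {V : Type u}

/-- The closed neighbourhood `N[v]`. -/
def closedNbhd (G : SimpleGraph V) (v : V) : Set V := insert v (G.neighborSet v)

/-- Z-domination game: after the moves `l` (most recent first), choosing `v` is legal iff
`N(v) \ ⋃_{w ∈ l} N[w]` is nonempty. -/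
def ZLegal (G : SimpleGraph V) (l : List V) (v : V) : Prop :=
  (G.neighborSet v \ ⋃ w ∈ l, closedNbhd G w).Nonempty

/-- LL-domination game: after the moves `l` (most recent first), choosing `v` is legal iff
`N[v] \ ⋃_{w ∈ l} N(w)` is nonempty. -/
def LLLegal (G : SimpleGraph V) (l : List V) (v : V) : Prop :=
  (closedNbhd G v \ ⋃ w ∈ l, G.neighborSet w).Nonempty

/-- `CanEnd L k b l`: in the two-player game in which the legal moves after the sequence of
moves `l` (most recent first) are those `v` with `L l v`, and which ends as soon as there is no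
legal move, Dominator can make sure that the game ends within `k` further moves, when after the
moves `l` it is Dominator's turn (`b = true`) or Staller's turn (`b = false`). -/
def CanEnd (L : List V → V → Prop) : ℕ → Bool → List V → Prop
  | 0, _, l => ∀ v, ¬ L l v
  | k + 1, true, l => (∀ v, ¬ L l v) ∨ ∃ v, L l v ∧ CanEnd L k false (v :: l)
  | k + 1, false, l => ∀ v, L l v → CanEnd L k true (v :: l)

/-- Number of moves of the game with legality relation `L` when Dominator moves first, wants the
game to end as soon as possible, Staller wants it to last as long as possible, and both play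
optimally: the least `k` such that Dominator can make sure that at most `k` moves are played. -/
noncomputable def gameValue (L : List V → V → Prop) : ℕ := sInf {k | CanEnd L k true []}

/-- The Z-domination game number `γ_Zg(G)`. -/
noncomputable def zNumber (G : SimpleGraph V) : ℕ := gameValue (ZLegal G)

/-- The LL-domination game number `γ_LLg(G)`. -/
noncomputable def llNumber (G : SimpleGraph V) : ℕ := gameValue (LLLegal G)

open Pool.Agent.helper41.Dom in
theorem canEnd_iff {L : List V → V → Prop} {legal : Finset V → V → Prop}
    {next : Finset V → V → Finset V} (U : List V → Finset V)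
    (h1 : ∀ l v, L l v ↔ legal (U l) v) (h2 : ∀ l v, U (v :: l) = next (U l) v) :
    ∀ (k : ℕ) (b : Bool) (l : List V), CanEnd L k b l ↔ FS legal next k b (U l) := by
  intro k
  induction k with
  | zero => intro b l; simp only [CanEnd, FS, h1]
  | succ k ih =>
    intro b l
    cases b with
    | true => simp only [CanEnd, FS, h1, ih, h2]
    | false => simp only [CanEnd, FS, h1, ih, h2]

open Pool.Agent.helper41.Dom in
/-- Every tree with at least two vertices satisfies `γ_Zg(T) < γ_LLg(T)`. -/
theorem result {V : Type u} [Fintype V] (T : SimpleGraph V) (hT : T.IsTree)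
    (hn : 2 ≤ Fintype.card V) : zNumber T < llNumber T := by
  classical
  have hiso : ∀ v, ∃ w, T.Adj v w := by
    intro v
    have : Nontrivial V := Fintype.one_lt_card_iff_nontrivial.1 (by omega)
    obtain ⟨w, hw⟩ := exists_ne v
    obtain ⟨p⟩ := hT.connected v w
    cases p with
    | nil => exact absurd rfl hw
    | cons h _ => exact ⟨_, h⟩
  have : Nonempty V := Fintype.card_pos_iff.1 (by omega)
  obtain ⟨r⟩ := this
  have : Nonempty V := ⟨r⟩
  have hr := rooted_of_isTree hT r
  -- the two state descriptions
  set UZ : List V → Finset V := fun l =>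
    Finset.univ.filter fun x => ∀ w ∈ l, x ≠ w ∧ ¬ T.Adj w x with hUZ
  set UL : List V → Finset V := fun l =>
    Finset.univ.filter fun x => ∀ w ∈ l, ¬ T.Adj w x with hUL
  have hZ : ∀ k : ℕ, CanEnd (ZLegal T) k true [] ↔
      FS (zl T) (zn T) k true (Finset.univ : Finset V) := by
    intro k
    have h0 : UZ [] = Finset.univ := by simp [hUZ]
    rw [← h0]
    apply canEnd_iff UZ
    · intro l v
      simp only [ZLegal, zl, hUZ, Set.Nonempty, Set.mem_sdiff, SimpleGraph.mem_neighborSet,
        Set.mem_iUnion, closedNbhd, Set.mem_insert_iff, Finset.mem_filter, Finset.mem_univ,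
        true_and, not_exists, not_or]
      constructor
      · rintro ⟨x, h1, h2⟩
        exact ⟨x, fun w hw => h2 w hw, h1⟩
      · rintro ⟨x, h1, h2⟩
        exact ⟨x, h2, fun w hw => h1 w hw⟩
    · intro l v
      ext x
      simp only [hUZ, mem_zn, Finset.mem_filter, Finset.mem_univ, true_and, List.mem_cons]
      constructor
      · intro h
        exact ⟨fun w hw => h w (Or.inr hw), h v (Or.inl rfl)⟩
      · rintro ⟨h1, h2⟩ w (rfl | hw)
        · exact h2
        · exact h1 w hw
  have hL : ∀ k : ℕ, CanEnd (LLLegal T) k true [] ↔
      FS (ll T) (ln T) k true (Finset.univ : Finset V) := by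
    intro k
    have h0 : UL [] = Finset.univ := by simp [hUL]
    rw [← h0]
    apply canEnd_iff UL
    · intro l v
      simp only [LLLegal, ll, hUL, Set.Nonempty, Set.mem_sdiff, SimpleGraph.mem_neighborSet,
        Set.mem_iUnion, closedNbhd, Set.mem_insert_iff, Finset.mem_filter, Finset.mem_univ,
        true_and, not_exists]
      constructor
      · rintro ⟨x, h1, h2⟩
        exact ⟨x, fun w hw => h2 w hw, h1⟩
      · rintro ⟨x, h1, h2⟩
        exact ⟨x, h2, fun w hw => h1 w hw⟩
    · intro l v
      ext x
      simp only [hUL, mem_ln, Finset.mem_filter, Finset.mem_univ, true_and, List.mem_cons]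
      constructor
      · intro h
        exact ⟨fun w hw => h w (Or.inr hw), h v (Or.inl rfl)⟩
      · rintro ⟨h1, h2⟩ w (rfl | hw)
        · exact h2
        · exact h1 w hw
  have hne : {k | CanEnd (LLLegal T) k true []}.Nonempty :=
    ⟨_, (hL _).2 (FL_exists hiso _ Finset.univ le_rfl)⟩
  have hmem : CanEnd (LLLegal T) (llNumber T) true [] := Nat.sInf_mem hne
  obtain ⟨j, hj, hjZ⟩ := compare hiso hr ((hL _).1 hmem)
  exact lt_of_le_of_lt (Nat.sInf_le ((hZ j).2 hjZ)) hj

end Pool.Agent.Results.MP_3a5066_co.TreeStrict
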